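import Mathlib

/-! Solution-free sets of integers. -/

namespace Pool.Agent.U17.SF

/-- The coefficients `(a 1, …, a ℓ, -b)` of the equation `a 1 x 1 + ⋯ + a ℓ x ℓ = b y`. -/
def coeff {ℓ : ℕ} (a : Fin ℓ → ℕ) (b : ℕ) : Fin (ℓ + 1) → ℤ :=
  Fin.snoc (α := fun _ => ℤ) (fun i => (a i : ℤ)) (-(b : ℤ))

/-- A solution `z` of `∑ c i * z i = 0` is trivial if the indices can be partitioned into classes
(the sets where `p` is constant) such that `z` is constant on every class and the coefficients of
every class have sum `0`. -/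
def Trivial {m : ℕ} (c z : Fin m → ℤ) : Prop :=
  ∃ p : Fin m → Fin m, (∀ i j, p i = p j → z i = z j) ∧
    ∀ t, ∑ i ∈ Finset.univ.filter (fun i => p i = t), c i = 0

/-- No tuple of elements of `S` is a non-trivial solution of `∑ c i * z i = 0`. -/
def Free {m : ℕ} (c : Fin m → ℤ) (S : Finset ℤ) : Prop :=
  ∀ z : Fin m → ℤ, (∀ i, z i ∈ S) → ∑ i, c i * z i = 0 → Trivial c z

/-- `A` contains a solution-free subset of cardinality at least `k`. -/
def HasFree {m : ℕ} (c : Fin m → ℤ) (A : Finset ℤ) (k : ℕ) : Prop :=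
  ∃ S ⊆ A, Free c S ∧ k ≤ S.card

lemma trivial_iff {ℓ : ℕ} {a : Fin ℓ → ℕ} {b : ℕ} (pos : ∀ i, 0 < a i) (x : Fin ℓ → ℤ) (y : ℤ) :
    Trivial (coeff a b) (Fin.snoc (α := fun _ => ℤ) x y) ↔
      (∀ i, x i = y) ∧ ∑ i, a i = b := by
  constructor
  · rintro ⟨p, h1, h2⟩
    have key : ∀ i : Fin ℓ, p i.castSucc = p (Fin.last ℓ) := by
      intro i
      by_contra hne
      have h3 := h2 (p i.castSucc)
      have h4 : 0 < ∑ j ∈ Finset.univ.filter (fun j => p j = p i.castSucc), coeff a b j := by
        refine Finset.sum_pos (fun j hj => ?_) ⟨i.castSucc, by simp⟩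
        induction j using Fin.lastCases with
        | last => exact absurd (by simpa using hj) (Ne.symm hne)
        | cast j => simpa [coeff] using pos j
      omega
    refine ⟨fun i => by simpa using h1 _ _ (key i), ?_⟩
    have h3 := h2 (p (Fin.last ℓ))
    have h4 : Finset.univ.filter (fun j => p j = p (Fin.last ℓ)) = Finset.univ := by
      refine Finset.filter_true_of_mem fun j _ => ?_
      induction j using Fin.lastCases with
      | last => rfl
      | cast j => exact key j
    rw [h4, Fin.sum_univ_castSucc] at h3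
    simp only [coeff, Fin.snoc_castSucc, Fin.snoc_last] at h3
    have : ((∑ i, a i : ℕ) : ℤ) = b := by push_cast; linarith
    exact_mod_cast this
  · rintro ⟨h1, h2⟩
    refine ⟨fun _ => Fin.last ℓ, fun i j _ => ?_, fun t => ?_⟩
    · have : ∀ i : Fin (ℓ + 1), (Fin.snoc (α := fun _ => ℤ) x y : Fin (ℓ + 1) → ℤ) i = y := by
        intro i
        induction i using Fin.lastCases with
        | last => simp
        | cast i => simpa using h1 i
      rw [this, this]
    · by_cases ht : Fin.last ℓ = t
      · rw [Finset.filter_true_of_mem fun _ _ => ht, Fin.sum_univ_castSucc]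
        simp only [coeff, Fin.snoc_castSucc, Fin.snoc_last]
        have : ((∑ i, a i : ℕ) : ℤ) = b := by exact_mod_cast h2
        push_cast at this
        linarith
      · rw [Finset.filter_false_of_mem fun _ _ => ht, Finset.sum_empty]

lemma free_iff {ℓ : ℕ} {a : Fin ℓ → ℕ} {b : ℕ} (pos : ∀ i, 0 < a i) (S : Finset ℤ) :
    Free (coeff a b) S ↔ ∀ (x : Fin ℓ → ℤ) (y : ℤ), (∀ i, x i ∈ S) → y ∈ S →
      ∑ i, (a i : ℤ) * x i = b * y → (∀ i, x i = y) ∧ ∑ i, a i = b := by
  constructor
  · intro h x y hx hy e
    refine (trivial_iff pos x y).1 (h _ (fun i => ?_) ?_)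
    · induction i using Fin.lastCases with
      | last => simpa using hy
      | cast i => simpa using hx i
    · rw [Fin.sum_univ_castSucc]
      simp only [coeff, Fin.snoc_castSucc, Fin.snoc_last]
      linarith
  · intro h z hz e
    rw [Fin.sum_univ_castSucc] at e
    simp only [coeff, Fin.snoc_castSucc, Fin.snoc_last] at e
    have := (trivial_iff pos (fun i => z i.castSucc) (z (Fin.last ℓ))).2
      (h _ _ (fun i => hz _) (hz _) (by linarith))
    have e2 : (Fin.snoc (α := fun _ => ℤ) (fun i => z i.castSucc) (z (Fin.last ℓ)) :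
        Fin (ℓ + 1) → ℤ) = z := by
      funext i
      induction i using Fin.lastCases with
      | last => simp
      | cast i => simp
    rwa [e2] at this

end Pool.Agent.U17.SF
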