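import Pool.Agent.U17.SF.Lang
import Pool.Agent.U17.SF.Defs

/-! L-Free Subset is in NP. -/

namespace Pool.Agent.U17.SF

open Pool.Agent.Cx Polynomial

/-- tuples of elements of a list -/
def tuples (W : List ℤ) : ℕ → List (List ℤ)
  | 0 => [[]]
  | n + 1 => W.flatMap fun w => (tuples W n).map fun t => w :: t

variable {α : Type} [Enc α]

lemma pt_tuples {W : α → List ℤ} (hW : PT W) (n : ℕ) : PT fun a => tuples (W a) n := by
  induction n with
  | zero => exact PT.const _
  | succ n ih =>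
    have h : PT fun p : α × ℤ => (tuples (W p.1) n).map fun t => p.2 :: t :=
      PT.map (f := fun (p : α × ℤ) (t : List ℤ) => p.2 :: t) (by fun_prop)
        (PT.comp (f := fun p : α × ℤ => p.1) ih PT.id.fst)
    exact PT.flatMap (f := fun a w => (tuples (W a) n).map fun t => w :: t) h hW

lemma mem_tuples {W : List ℤ} {n : ℕ} {t : List ℤ} :
    t ∈ tuples W n ↔ ∃ z : Fin n → ℤ, (∀ i, z i ∈ W) ∧ t = List.ofFn z := by
  induction n generalizing t with
  | zero =>
    simp only [tuples, List.mem_singleton, List.ofFn_zero]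
    exact ⟨fun h => ⟨Fin.elim0, fun i => i.elim0, h⟩, fun ⟨_, _, h⟩ => h⟩
  | succ n ih =>
    simp only [tuples, List.mem_flatMap, List.mem_map]
    constructor
    · rintro ⟨w, hw, s, hs, rfl⟩
      obtain ⟨z, hz, rfl⟩ := ih.1 hs
      refine ⟨Fin.cons w z, fun i => ?_, by simp [List.ofFn_succ]⟩
      refine Fin.cases ?_ (fun i => ?_) i
      · simpa using hw
      · simpa using hz i
    · rintro ⟨z, hz, rfl⟩
      exact ⟨z 0, hz 0, _, ih.2 ⟨fun i => z i.succ, fun i => hz _, rfl⟩, by simp [List.ofFn_succ]⟩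

/-- the sum `∑ c i * z i` -/
def dot (c t : List ℤ) : ℤ := (List.zipWith (fun x y => x * y) c t).sum

lemma dot_ofFn {n : ℕ} (c z : Fin n → ℤ) : dot (List.ofFn c) (List.ofFn z) = ∑ i, c i * z i := by
  have : List.zipWith (fun x y => x * y) (List.ofFn c) (List.ofFn z) =
      List.ofFn fun i => c i * z i := by
    apply List.ext_getElem <;> simp
  rw [dot, this, List.sum_ofFn]

/-- the verifier of the freeness of a list -/
def Ok (c : List ℤ) (q : Prop) (n : ℕ) (W : List ℤ) : Prop :=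
  ∀ t ∈ tuples W n, dot c t = 0 → (∀ x ∈ t, x = t.headD 0) ∧ q

lemma pp_ok (c : List ℤ) (q : Prop) (n : ℕ) {W : α → List ℤ} (hW : PT W) :
    PP fun a => Ok c q n (W a) := by
  unfold Ok
  refine PP.ball (p := fun (_ : α) (t : List ℤ) => dot c t = 0 → (∀ x ∈ t, x = t.headD 0) ∧ q) ?_
    (pt_tuples hW n)
  refine PP.imp ?_ (PP.and ?_ (PP.const q))
  · unfold dot
    have : PT fun p : α × List ℤ => (List.zipWith (fun x y => x * y) c p.2).sum :=
      PT.sumZ (PT.zipWith (f := fun (_ : α × List ℤ) (x y : ℤ) => x * y) (by fun_prop)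
        (PT.const c) PT.id.snd)
    exact PP.eq this (PT.const 0)
  · exact PP.ball (p := fun (p : α × List ℤ) (x : ℤ) => x = p.2.headD 0) (by fun_prop) PT.id.snd

lemma ok_iff {ℓ : ℕ} {a : Fin ℓ → ℕ} {b : ℕ} (pos : ∀ i, 0 < a i) (W : List ℤ) :
    Ok (List.ofFn (coeff a b)) (∑ i, a i = b) (ℓ + 1) W ↔ Free (coeff a b) W.toFinset := by
  constructor
  · intro h z hz e
    have h1 := h (List.ofFn z) (mem_tuples.2 ⟨z, fun i => by simpa using hz i, rfl⟩)
      (by rw [dot_ofFn]; exact e)
    have h2 : ∀ i, z i = z (Fin.last ℓ) := by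
      have h3 : ∀ i, z i = (List.ofFn z).headD 0 := fun i => h1.1 _ (List.mem_ofFn.2 ⟨i, rfl⟩)
      intro i
      rw [h3 i, ← h3 (Fin.last ℓ)]
    have h4 := (trivial_iff (b := b) pos (fun i : Fin ℓ => z i.castSucc) (z (Fin.last ℓ))).2
      ⟨fun i => h2 _, h1.2⟩
    have e2 : (Fin.snoc (α := fun _ => ℤ) (fun i => z i.castSucc) (z (Fin.last ℓ)) :
        Fin (ℓ + 1) → ℤ) = z := by
      funext i
      induction i using Fin.lastCases with
      | last => simp
      | cast i => simp
    rwa [e2] at h4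
  · intro h t ht e
    obtain ⟨z, hz, rfl⟩ := mem_tuples.1 ht
    rw [dot_ofFn] at e
    have h4 := h z (fun i => by simpa using hz i) e
    have e2 : (Fin.snoc (α := fun _ => ℤ) (fun i => z i.castSucc) (z (Fin.last ℓ)) :
        Fin (ℓ + 1) → ℤ) = z := by
      funext i
      induction i using Fin.lastCases with
      | last => simp
      | cast i => simp
    rw [← e2] at h4
    have h5 := (trivial_iff pos _ _).1 h4
    refine ⟨fun x hx => ?_, h5.2⟩
    have h6 : ∀ i, z i = z (Fin.last ℓ) := by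
      intro i
      induction i using Fin.lastCases with
      | last => rfl
      | cast i => exact h5.1 i
    obtain ⟨i, rfl⟩ := List.mem_ofFn.1 hx
    have h7 : (List.ofFn z).headD 0 = z 0 := by simp [List.ofFn_succ]
    rw [h7, h6 i, h6 0]

lemma size_le_of_subset {W A : List ℤ} (h : W.Nodup) (h2 : ∀ x ∈ W, x ∈ A) :
    size W ≤ (size A + 1) * size A + 1 := by
  have h1 : W.length ≤ A.length := by
    rw [← List.toFinset_card_of_nodup h]
    exact (Finset.card_le_card fun x hx => by simpa using h2 x (by simpa using hx)).trans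
      (List.toFinset_card_le A)
  refine (size_list_le W (size A) fun x hx => (size_lt_of_mem (h2 x hx)).le).trans ?_
  have := length_lt_size A
  nlinarith

theorem inNP {ℓ : ℕ} {a : Fin ℓ → ℕ} {b : ℕ} (pos : ∀ i, 0 < a i) :
    InNP (freeSubset (coeff a b)) := by
  classical
  have e : freeSubset (coeff a b) = Lang (fun I : List ℤ × ℤ =>
      I.1.Nodup ∧ 0 ≤ I.2 ∧ HasFree (coeff a b) I.1.toFinset I.2.toNat) := by
    ext w
    constructor
    · rintro ⟨A, k, h1, h2, rfl⟩
      exact ⟨(A, (k : ℤ)), ⟨h1, by positivity, by simpa using h2⟩, rfl⟩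
    · rintro ⟨⟨A, k⟩, ⟨h1, h2, h3⟩, rfl⟩
      refine ⟨A, k.toNat, h1, h3, ?_⟩
      simp only at h2
      rw [code, Int.toNat_of_nonneg h2]
  rw [e]
  set V : (List ℤ × ℤ) × List ℤ → Prop := fun p => (p.1.1.Nodup ∧ 0 ≤ p.1.2) ∧
    (p.2.Nodup ∧ ∀ x ∈ p.2, x ∈ p.1.1) ∧ (Ok (List.ofFn (coeff a b)) (∑ i, a i = b) (ℓ + 1) p.2 ∧
      p.1.2 ≤ ((p.2.length : ℕ) : ℤ)) with hV
  have hVp : PP V := by
    refine PP.and (PP.and (PP.nodup (by fun_prop)) (PP.leZ (by fun_prop) (by fun_prop)))
      (PP.and (PP.and (PP.nodup (by fun_prop))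
        (PP.ball (p := fun (p : (List ℤ × ℤ) × List ℤ) (x : ℤ) => x ∈ p.1.1) (by fun_prop)
          (by fun_prop))) (PP.and (pp_ok _ _ _ (by fun_prop)) (PP.leZ (by fun_prop) ?_)))
    exact (PT.sumZ (PT.replicate (n := fun p : (List ℤ × ℤ) × List ℤ => p.2.length) (by fun_prop)
      (PT.const (1 : ℤ)))).of_eq fun a => by simp
  refine inNP_Lang (V := fun p => decide (V p)) hVp.decide ((X + 1) * X + 1) ?_ ?_
  · rintro ⟨A, k⟩ ⟨h1, h2, S, h3, h4, h5⟩
    simp only at h1 h2 h3 h5
    refine ⟨S.toList, ?_, ?_⟩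
    · have q : size S.toList ≤ (size A + 1) * size A + 1 :=
        size_le_of_subset S.nodup_toList fun x hx => by
          simpa using h3 (by simpa using hx)
      have q2 : size A ≤ size (A, k) := by rw [size_pair]; omega
      simp only [eval_add, eval_mul, eval_X, eval_one]
      nlinarith
    · simp only [hV, decide_eq_true_eq]
      refine ⟨⟨h1, h2⟩, ⟨S.nodup_toList, fun x hx => by simpa using h3 (by simpa using hx)⟩,
        (ok_iff pos _).2 (by simpa using h4), ?_⟩
      rw [Finset.length_toList]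
      omega
  · rintro ⟨A, k⟩ W h
    simp only [hV, decide_eq_true_eq] at h
    obtain ⟨⟨h1, h2⟩, ⟨h3, h4⟩, h5, h6⟩ := h
    refine ⟨h1, h2, W.toFinset, fun x hx => by simpa using h4 x (by simpa using hx),
      (ok_iff pos _).1 h5, ?_⟩
    rw [List.toFinset_card_of_nodup h3]
    simp only
    omega

end Pool.Agent.U17.SF
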