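import Mathlib

/-! Integers of polynomial size without short relations. -/

namespace Pool.Agent.U17.SF

open Finset

/-- the number attached to the vertex `v` -/
def num (T : ℤ) (d v : ℕ) : ℤ := ∑ j ∈ range d, ((v : ℤ) * T) ^ j

lemma digits {T h : ℤ} (hT : 2 * h < T) (h0 : 0 ≤ h) : ∀ (d : ℕ) (D : ℕ → ℤ),
    (∀ j < d, |D j| ≤ h) → ∑ j ∈ range d, D j * T ^ j = 0 → ∀ j < d, D j = 0 := by
  intro d
  induction d with
  | zero => intro D _ _ j hj; omega
  | succ d ih =>
    intro D hD hs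
    rw [sum_range_succ'] at hs
    have e : ∑ j ∈ range d, D (j + 1) * T ^ (j + 1) = T * ∑ j ∈ range d, D (j + 1) * T ^ j := by
      rw [mul_sum]; refine sum_congr rfl fun j _ => by ring
    rw [e, pow_zero, mul_one] at hs
    have h1 : T ∣ D 0 := ⟨-∑ j ∈ range d, D (j + 1) * T ^ j, by linarith⟩
    have h2 : D 0 = 0 := Int.eq_zero_of_abs_lt_dvd h1 (by have := hD 0 (by omega); omega)
    have h3 : ∑ j ∈ range d, D (j + 1) * T ^ j = 0 := by
      rw [h2, add_zero] at hs
      exact (mul_eq_zero.1 hs).resolve_left (by omega)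
    intro j hj
    rcases j with _ | j
    · exact h2
    · exact ih (fun j => D (j + 1)) (fun j hj => hD _ (by omega)) h3 j (by omega)

lemma vander (S : Finset ℕ) (d : ℕ) (hS : S.card ≤ d) (c : ℕ → ℤ)
    (h : ∀ j < d, ∑ v ∈ S, c v * (v : ℤ) ^ j = 0) : ∀ v ∈ S, c v = 0 := by
  intro w hw
  set Q : Polynomial ℤ := ∏ s ∈ S.erase w, (Polynomial.X - Polynomial.C (s : ℤ)) with hQ
  have hdeg : Q.natDegree < d := by
    rw [hQ, Polynomial.natDegree_prod_of_monic _ _ fun s _ => Polynomial.monic_X_sub_C _]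
    simp only [Polynomial.natDegree_X_sub_C, sum_const, smul_eq_mul, mul_one,
      card_erase_of_mem hw]
    have := card_pos.2 ⟨w, hw⟩
    omega
  have h1 : ∑ v ∈ S, c v * Q.eval (v : ℤ) = 0 := by
    have : ∀ v ∈ S, c v * Q.eval (v : ℤ) =
        ∑ j ∈ range d, Q.coeff j * (c v * (v : ℤ) ^ j) := fun v _ => by
      rw [Polynomial.eval_eq_sum_range' hdeg, mul_sum]
      exact sum_congr rfl fun j _ => by ring
    rw [sum_congr rfl this, sum_comm]
    refine sum_eq_zero fun j hj => ?_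
    rw [← mul_sum, h j (mem_range.1 hj), mul_zero]
  have h2 : ∑ v ∈ S, c v * Q.eval (v : ℤ) = c w * Q.eval (w : ℤ) := by
    refine sum_eq_single_of_mem w hw fun v hv hvw => ?_
    have : Q.eval (v : ℤ) = 0 := by
      rw [hQ, Polynomial.eval_prod]
      exact prod_eq_zero (mem_erase.2 ⟨hvw, hv⟩) (by simp)
    rw [this, mul_zero]
  rw [h2] at h1
  refine (mul_eq_zero.1 h1).resolve_right ?_
  rw [hQ, Polynomial.eval_prod]
  refine prod_ne_zero_iff.2 fun s hs => ?_
  have := (mem_erase.1 hs).1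
  simp only [Polynomial.eval_sub, Polynomial.eval_X, Polynomial.eval_C]
  intro e
  exact this (by exact_mod_cast (sub_eq_zero.1 e).symm)

/-- at most `d` of the numbers of the vertices below `n` have no relation with coefficients
bounded by `C` -/
lemma diss {T C : ℤ} {d n : ℕ} (hC : 0 ≤ C) (hT : 2 * (d * C * n ^ d) < T) (S : Finset ℕ)
    (hS : S.card ≤ d) (hn : ∀ v ∈ S, v < n) (c : ℕ → ℤ) (hc : ∀ v ∈ S, |c v| ≤ C)
    (h : ∑ v ∈ S, c v * num T d v = 0) : ∀ v ∈ S, c v = 0 := by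
  rcases S.eq_empty_or_nonempty with rfl | ⟨v0, hv0⟩
  · simp
  have hn0 : 0 < n := lt_of_le_of_lt (Nat.zero_le _) (hn v0 hv0)
  have e : ∑ v ∈ S, c v * num T d v = ∑ j ∈ range d, (∑ v ∈ S, c v * (v : ℤ) ^ j) * T ^ j := by
    simp only [num, mul_sum, sum_mul]
    rw [sum_comm]
    refine sum_congr rfl fun j _ => sum_congr rfl fun v _ => by rw [mul_pow]; ring
  rw [e] at h
  refine vander S d hS c (digits hT (by positivity) d _ (fun j hj => ?_) h)
  calc |∑ v ∈ S, c v * (v : ℤ) ^ j| ≤ ∑ v ∈ S, |c v * (v : ℤ) ^ j| := abs_sum_le_sum_abs _ _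
    _ ≤ ∑ _v ∈ S, C * (n : ℤ) ^ d := by
        refine sum_le_sum fun v hv => ?_
        rw [abs_mul, abs_pow, Nat.abs_cast]
        have h1 : ((v : ℤ)) ^ j ≤ (n : ℤ) ^ d :=
          (pow_le_pow_left₀ (by positivity) (by exact_mod_cast (hn v hv).le) j).trans
            (pow_le_pow_right₀ (by exact_mod_cast hn0) hj.le)
        exact mul_le_mul (hc v hv) h1 (by positivity) hC
    _ = S.card * (C * (n : ℤ) ^ d) := by rw [sum_const, nsmul_eq_mul]
    _ ≤ d * (C * (n : ℤ) ^ d) := by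
        refine mul_le_mul_of_nonneg_right (by exact_mod_cast hS) (by positivity)
    _ = d * C * n ^ d := by ring

lemma num_nonneg {T : ℤ} (hT : 0 ≤ T) (d v : ℕ) : 0 ≤ num T d v :=
  sum_nonneg fun j _ => by positivity

lemma num_le {T : ℤ} (hT : 1 ≤ T) (d v n : ℕ) (h : v < n) : num T d v ≤ d * (n * T) ^ d := by
  unfold num
  calc ∑ j ∈ range d, ((v : ℤ) * T) ^ j ≤ ∑ _j ∈ range d, ((n : ℤ) * T) ^ d := by
        refine sum_le_sum fun j hj => ?_
        have h1 : (v : ℤ) * T ≤ n * T := mul_le_mul_of_nonneg_right (by exact_mod_cast h.le) (by omega)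
        have h2 : (1 : ℤ) ≤ n * T := by
          have : (1 : ℤ) ≤ n := by exact_mod_cast (by omega : 1 ≤ n)
          nlinarith
        exact (pow_le_pow_left₀ (by positivity) h1 j).trans
          (pow_le_pow_right₀ h2 (mem_range.1 hj).le)
    _ = d * (n * T) ^ d := by rw [sum_const, card_range, nsmul_eq_mul]

end Pool.Agent.U17.SF
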