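import Pool.Agent.U17.SF.Core
import Pool.Agent.U17.SF.Defs

/-! A graph as a set of integers: large solution-free subsets and independent sets. -/

namespace Pool.Agent.U17.SF

open Finset

/-- the vertices and the pairs which are not joined -/
def items (n : ℕ) (adj : ℕ → ℕ → Prop) [DecidableRel adj] : Finset (ℕ × ℕ) :=
  (range n ×ˢ range n).filter fun p => p.1 = p.2 ∨ (p.1 < p.2 ∧ ¬ (adj p.1 p.2 ∧ adj p.2 p.1))

variable {n : ℕ} {adj : ℕ → ℕ → Prop} [DecidableRel adj]

lemma mem_items {p : ℕ × ℕ} : p ∈ items n adj ↔ (p.1 < n ∧ p.2 < n) ∧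
    (p.1 = p.2 ∨ (p.1 < p.2 ∧ ¬ (adj p.1 p.2 ∧ adj p.2 p.1))) := by
  simp [items]

lemma items_le {p : ℕ × ℕ} (h : p ∈ items n adj) : p.1 ≤ p.2 := by
  have := (mem_items.1 h).2
  omega

lemma items_diag {u : ℕ} : (u, u) ∈ items n adj ↔ u < n := by
  rw [mem_items]; simp

lemma card_items : (items n adj).card = n + ((items n adj).filter fun p => p.1 < p.2).card := by
  have e1 := card_filter_add_card_filter_not (s := items n adj) (fun p : ℕ × ℕ => p.1 < p.2)
  have e2 : ((items n adj).filter fun p => ¬ p.1 < p.2) = (range n).image fun u => (u, u) := by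
    ext ⟨u, v⟩
    simp only [mem_filter, mem_items, mem_image, mem_range, Prod.mk.injEq]
    constructor
    · rintro ⟨⟨⟨h1, h2⟩, h3⟩, h4⟩
      exact ⟨u, h1, rfl, by omega⟩
    · rintro ⟨w, h1, rfl, rfl⟩
      exact ⟨⟨⟨h1, h1⟩, Or.inl rfl⟩, lt_irrefl _⟩
  rw [e2, card_image_of_injective _ (fun u v h => (Prod.mk.inj h).1), card_range] at e1
  omega

variable {m d b : ℕ} {a : Fin (m + 2) → ℕ} {T : ℤ}

lemma val_inj {a1 a' C : ℕ} (h1 : 0 < a1) (h2 : 0 < a') (hb : 0 < b) (hC : a1 + a' + b ≤ C)
    (hd : 4 ≤ d) (hT : 2 * ((d : ℤ) * (C : ℤ) * (n : ℤ) ^ d) < T) {p q : ℕ × ℕ}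
    (hp : p.1 ≤ p.2) (hq : q.1 ≤ q.2) (hp' : p.1 < n ∧ p.2 < n) (hq' : q.1 < n ∧ q.2 < n)
    (h : val T d a1 a' b p = val T d a1 a' b q) : p = q := by
  classical
  set S : Finset ℕ := {p.1, p.2, q.1, q.2} with hS
  have key := diss (T := T) (C := (C : ℤ)) (d := d) (n := n) (by positivity) hT S
    (by
      refine le_trans ?_ hd
      rw [hS]
      exact card_le_four)
    (by
      intro v hv
      simp only [hS, mem_insert, mem_singleton] at hv
      rcases hv with rfl | rfl | rfl | rfl
      exacts [hp'.1, hp'.2, hq'.1, hq'.2])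
    (fun w => (form a1 a' b p w : ℤ) - form a1 a' b q w) (fun v _ => by
      have e1 : ((form a1 a' b p v : ℕ) : ℤ) ≤ C := by exact_mod_cast (form_le p v).trans hC
      have e2 : ((form a1 a' b q v : ℕ) : ℤ) ≤ C := by exact_mod_cast (form_le q v).trans hC
      have e3 : (0 : ℤ) ≤ form a1 a' b p v := by positivity
      have e4 : (0 : ℤ) ≤ form a1 a' b q v := by positivity
      rw [abs_le]; constructor <;> linarith) (by
      simp only [sub_mul, sum_sub_distrib]
      rw [← val_eq p S (by simp [hS]) (by simp [hS]), ← val_eq q S (by simp [hS]) (by simp [hS]), h,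
        sub_self])
  have f1 : ∀ p : ℕ × ℕ, 0 < form a1 a' b p p.1 := fun p => by
    unfold form; split_ifs <;> omega
  have f2 : ∀ p : ℕ × ℕ, 0 < form a1 a' b p p.2 := fun p => by
    unfold form; split_ifs <;> omega
  have e : ∀ v ∈ S, form a1 a' b p v = form a1 a' b q v := fun v hv => by
    have := sub_eq_zero.1 (key v hv)
    exact_mod_cast this
  have t : ∀ r : ℕ × ℕ, ∀ v, 0 < form a1 a' b r v → v = r.1 ∨ v = r.2 := fun r v hv => by
    by_contra hc
    push Not at hc
    rw [form_zero hc.1 hc.2] at hv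
    omega
  have g1 := t q p.1 (e p.1 (by simp [hS]) ▸ f1 p)
  have g2 := t q p.2 (e p.2 (by simp [hS]) ▸ f2 p)
  have g3 := t p q.1 (by rw [e q.1 (by simp [hS])]; exact f1 q)
  have g4 := t p q.2 (by rw [e q.2 (by simp [hS])]; exact f2 q)
  exact Prod.ext (by omega) (by omega)

/-- the set of integers of a graph -/
def ints (T : ℤ) (d : ℕ) (a : Fin (m + 2) → ℕ) (b n : ℕ) (adj : ℕ → ℕ → Prop) [DecidableRel adj] :
    Finset ℤ := (items n adj).image (val T d (a 0) (∑ i : Fin (m + 1), a i.succ) b)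

/-- `S` is a clique of size `k` -/
def Clique (n : ℕ) (adj : ℕ → ℕ → Prop) (k : ℕ) : Prop :=
  ∃ S : Finset ℕ, (∀ u ∈ S, u < n) ∧ S.card = k ∧ ∀ u ∈ S, ∀ v ∈ S, u ≠ v → adj u v

section

variable (pos : ∀ i, 0 < a i) (hb : 0 < b) (hd : 2 * (m + 3) ≤ d)
  (hT : 2 * ((d : ℤ) * (((∑ i, a i) + b) * ((∑ i, a i) + b) : ℕ) * (n : ℤ) ^ d) < T)

include pos hb hd hT

lemma inj_ints : Set.InjOn (val T d (a 0) (∑ i : Fin (m + 1), a i.succ) b)
    (items n adj : Set (ℕ × ℕ)) := by
  intro p hp q hq h
  have hs : ∑ i, a i = a 0 + ∑ i : Fin (m + 1), a i.succ := Fin.sum_univ_succ _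
  refine val_inj (pos 0) (Finset.sum_pos (fun i _ => pos _) ⟨0, mem_univ _⟩) hb ?_ (by omega) hT
    (items_le (mem_coe.1 hp)) (items_le (mem_coe.1 hq)) (mem_items.1 (mem_coe.1 hp)).1
    (mem_items.1 (mem_coe.1 hq)).1 h
  rw [hs]
  nlinarith

lemma core_ints (x : Fin (m + 2) → ℕ × ℕ) (y : ℕ × ℕ) (hx : ∀ i, x i ∈ items n adj)
    (hy : y ∈ items n adj)
    (h : ∑ i, (a i : ℤ) * val T d (a 0) (∑ i : Fin (m + 1), a i.succ) b (x i) =
      b * val T d (a 0) (∑ i : Fin (m + 1), a i.succ) b y) :
    ((∀ i, x i = y) ∧ ∑ i, a i = b) ∨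
      (y.1 < y.2 ∧ (∃ i, x i = (y.1, y.1)) ∧ ∃ i, x i = (y.2, y.2)) := by
  have hs : ∑ i, a i = a 0 + ∑ i : Fin (m + 1), a i.succ := Fin.sum_univ_succ _
  have hs' : 0 < ∑ i : Fin (m + 1), a i.succ := Finset.sum_pos (fun i _ => pos _) ⟨0, mem_univ _⟩
  refine core pos (pos 0) hs' hb x y (fun i => items_le (hx i)) (items_le hy) fun w => ?_
  refine rel (by omega) ?_ x y (fun i => (mem_items.1 (hx i)).1) (mem_items.1 hy).1 h w
  rw [← hs]
  exact hT

theorem clique_iff (k : ℕ) : Clique n adj k ↔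
    HasFree (coeff a b) (ints T d a b n adj) ((items n adj).card + k - n) := by
  classical
  set f := val T d (a 0) (∑ i : Fin (m + 1), a i.succ) b with hf
  have hinj : Set.InjOn f (items n adj : Set (ℕ × ℕ)) := inj_ints pos hb hd hT
  have hcard := card_items (n := n) (adj := adj)
  constructor
  · rintro ⟨S, h1, h2, h3⟩
    set F : Finset (ℕ × ℕ) := S.image (fun u => (u, u)) ∪ (items n adj).filter (fun p => p.1 < p.2)
      with hF
    have hsub : F ⊆ items n adj := by
      intro p hp
      rw [hF, mem_union] at hp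
      rcases hp with hp | hp
      · obtain ⟨u, hu, rfl⟩ := mem_image.1 hp
        exact items_diag.2 (h1 u hu)
      · exact (mem_filter.1 hp).1
    have hFc : F.card = k + ((items n adj).filter fun p => p.1 < p.2).card := by
      rw [hF, card_union_of_disjoint, card_image_of_injective _ (fun u v h => (Prod.mk.inj h).1), h2]
      rw [disjoint_left]
      intro p hp hp2
      obtain ⟨u, hu, rfl⟩ := mem_image.1 hp
      exact lt_irrefl _ (mem_filter.1 hp2).2
    refine ⟨F.image f, image_subset_image hsub, ?_, ?_⟩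
    · rw [free_iff pos]
      intro x y hx hy e
      have hx' : ∀ i, ∃ p ∈ F, f p = x i := fun i => mem_image.1 (hx i)
      choose X hX hXe using hx'
      obtain ⟨Y, hY, rfl⟩ := mem_image.1 hy
      have e2 : ∑ i, (a i : ℤ) * f (X i) = b * f Y := by
        rw [← e]; exact sum_congr rfl fun i _ => by rw [hXe]
      rcases core_ints pos hb hd hT X Y (fun i => hsub (hX i)) (hsub hY) e2 with
        ⟨g1, g2⟩ | ⟨g1, ⟨i, g2⟩, j, g3⟩
      · exact ⟨fun i => by rw [← hXe, g1], g2⟩
      · exfalso
        have r : ∀ u, (u, u) ∈ F → u ∈ S := by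
          intro u hu
          rw [hF, mem_union] at hu
          rcases hu with hu | hu
          · obtain ⟨v, hv, e⟩ := mem_image.1 hu
            rwa [← (Prod.mk.inj e).1]
          · exact absurd (mem_filter.1 hu).2 (lt_irrefl _)
        have r1 := r _ (g2 ▸ hX i)
        have r2 := r _ (g3 ▸ hX j)
        have r3 := (mem_items.1 (hsub hY)).2
        rcases r3 with r3 | r3
        · omega
        · exact r3.2 ⟨h3 _ r1 _ r2 (by omega), h3 _ r2 _ r1 (by omega)⟩
    · rw [card_image_of_injOn (hinj.mono (by exact_mod_cast hsub))]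
      omega
  · rintro ⟨F', h1, h2, h3⟩
    rw [free_iff pos] at h2
    set F := (items n adj).filter fun p => f p ∈ F' with hF
    have hFF : F.image f = F' := by
      ext z
      simp only [mem_image, hF, mem_filter]
      constructor
      · rintro ⟨p, ⟨_, hp⟩, rfl⟩; exact hp
      · intro hz
        obtain ⟨p, hp, rfl⟩ := mem_image.1 (h1 hz)
        exact ⟨p, ⟨hp, hz⟩, rfl⟩
    have hFs : F ⊆ items n adj := filter_subset _ _
    have hFc : F.card = F'.card := by
      rw [← hFF, card_image_of_injOn (hinj.mono (by exact_mod_cast hFs))]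
    set S0 := (range n).filter fun u => (u, u) ∈ F with hS0
    set B := (items n adj).filter fun p => p.1 < p.2 ∧ (p.1, p.1) ∈ F ∧ (p.2, p.2) ∈ F with hB
    have hBF : ∀ p ∈ B, p ∉ F := by
      intro p hp hpF
      obtain ⟨q1, q2, q3, q4⟩ := mem_filter.1 hp
      have g := h2 (Fin.cons (f (p.1, p.1)) fun _ => f (p.2, p.2)) (f p) (fun i => by
        refine Fin.cases ?_ (fun i => ?_) i
        · simpa using (mem_filter.1 q3).2
        · simpa using (mem_filter.1 q4).2) (mem_filter.1 hpF).2 (by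
        rw [Fin.sum_univ_succ]
        simp only [Fin.cons_zero, Fin.cons_succ]
        rw [← sum_mul, hf]
        unfold val
        rw [if_pos rfl, if_pos rfl, if_neg q2.ne]
        push_cast
        ring)
      have g1 := g.1 0
      have g2 := g.1 1
      simp only [Fin.cons_zero] at g1
      rw [show (1 : Fin (m + 2)) = Fin.succ 0 from rfl, Fin.cons_succ] at g2
      have := hinj (mem_coe.2 (hFs q3)) (mem_coe.2 (hFs q4)) (g1.trans g2.symm)
      have := (Prod.mk.inj this).1
      omega
    have hcF : F.card + B.card ≤ S0.card + ((items n adj).filter fun p => p.1 < p.2).card := by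
      have e1 := card_filter_add_card_filter_not (s := F) (fun p : ℕ × ℕ => p.1 < p.2)
      have e2 : (F.filter fun p => ¬ p.1 < p.2).card ≤ S0.card := by
        refine card_le_card_of_injOn Prod.fst (fun p hp => ?_) (fun p hp q hq e => ?_)
        · obtain ⟨q1, q2⟩ := mem_filter.1 (mem_coe.1 hp)
          have q3 := items_le (hFs q1)
          have q4 : p = (p.1, p.1) := Prod.ext rfl (by omega)
          refine mem_coe.2 (mem_filter.2 ⟨mem_range.2 (mem_items.1 (hFs q1)).1.1, ?_⟩)
          rw [← q4]; exact q1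
        · obtain ⟨q1, q2⟩ := mem_filter.1 (mem_coe.1 hp)
          obtain ⟨q3, q4⟩ := mem_filter.1 (mem_coe.1 hq)
          have := items_le (hFs q1)
          have := items_le (hFs q3)
          exact Prod.ext e (by omega)
      have e3 : (F.filter fun p => p.1 < p.2).card + B.card ≤
          ((items n adj).filter fun p => p.1 < p.2).card := by
        rw [← card_union_of_disjoint]
        · refine card_le_card fun p hp => ?_
          rcases mem_union.1 hp with hp | hp
          · exact mem_filter.2 ⟨hFs (mem_filter.1 hp).1, (mem_filter.1 hp).2⟩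
          · exact mem_filter.2 ⟨(mem_filter.1 hp).1, (mem_filter.1 hp).2.1⟩
        · rw [disjoint_left]
          intro p hp hp2
          exact hBF p hp2 (mem_filter.1 hp).1
      omega
    set S1 := S0 \ B.image Prod.fst with hS1
    have hc1 : k ≤ S1.card := by
      have e1 := le_card_sdiff (B.image Prod.fst) S0
      have e2 : (B.image Prod.fst).card ≤ B.card := card_image_le
      rw [← hS1] at e1
      omega
    obtain ⟨S, hS, hSk⟩ := exists_subset_card_eq hc1
    have key : ∀ u ∈ S, ∀ v ∈ S, u < v → adj u v ∧ adj v u := by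
      intro u hu v hv huv
      by_contra hc
      have u1 := mem_sdiff.1 (hS hu)
      have v1 := mem_sdiff.1 (hS hv)
      have u2 := mem_filter.1 u1.1
      have v2 := mem_filter.1 v1.1
      exact u1.2 (mem_image.2 ⟨(u, v), mem_filter.2 ⟨mem_items.2 ⟨⟨mem_range.1 u2.1,
        mem_range.1 v2.1⟩, Or.inr ⟨huv, hc⟩⟩, huv, u2.2, v2.2⟩, rfl⟩)
    refine ⟨S, fun u hu => mem_range.1 (mem_filter.1 (mem_sdiff.1 (hS hu)).1).1, hSk,
      fun u hu v hv huv => ?_⟩
    rcases huv.lt_or_gt with h | h
    · exact (key u hu v hv h).1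
    · exact (key v hv u hu h).2

lemma card_ints : (ints T d a b n adj).card = (items n adj).card :=
  card_image_of_injOn (inj_ints pos hb hd hT)

end

end Pool.Agent.U17.SF
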