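import Pool.Agent.Lib.helper9.BinA
import Pool.Agent.U17.SF.Graph

/-! The reduction from CLIQUE to large solution-free subsets, in polynomial time. -/

set_option linter.unusedSectionVars false

namespace Pool.Agent.U17.SF

open Pool.Agent.Cx Polynomial

variable {α : Type} [Enc α]

@[fun_prop] lemma castZ {f : α → ℕ} (hf : PT f) : PT fun a => ((f a : ℕ) : ℤ) :=
  (PT.sumZ (hf.replicate (PT.const (1 : ℤ)))).of_eq fun a => by simp

lemma pt_num (d : ℕ) {T : α → ℤ} {v : α → ℕ} (hT : PT T) (hv : PT v) :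
    PT fun a => num (T a) d (v a) := by
  have h : PT fun a => ((List.range d).map fun j => ((v a : ℤ) * T a) ^ j).sum := by
    fun_prop
  refine h.of_eq fun a => ?_
  unfold num
  rw [← List.sum_toFinset _ List.nodup_range, List.toFinset_range]

lemma pt_val (d a1 a' b : ℕ) {T : α → ℤ} {p : α → ℕ × ℕ} (hT : PT T) (hp : PT p) :
    PT fun a => val (T a) d a1 a' b (p a) := by
  unfold val
  have h1 : PT fun a => num (T a) d (p a).1 := pt_num d hT hp.fst
  have h2 : PT fun a => num (T a) d (p a).2 := pt_num d hT hp.snd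
  refine PP.ite (by fun_prop) ?_ ?_ <;> fun_prop

/-- the base of the expansions -/
def base (m : ℕ) (a : Fin (m + 2) → ℕ) (b n : ℕ) : ℤ :=
  2 * (((2 * (m + 3) : ℕ) : ℤ) * (((∑ i, a i) + b) * ((∑ i, a i) + b) : ℕ) *
    (n : ℤ) ^ (2 * (m + 3))) + 1

/-- the items of the graph with matrix `M` -/
def itemsL (M : List (List Bool)) : List (ℕ × ℕ) :=
  ((List.range M.length) ×ˢ (List.range M.length)).filter fun p =>
    decide (p.1 = p.2 ∨ (p.1 < p.2 ∧ ¬ (ent M p.1 p.2 = true ∧ ent M p.2 p.1 = true)))

/-- the list of integers -/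
def intsL (m : ℕ) (a : Fin (m + 2) → ℕ) (b : ℕ) (M : List (List Bool)) : List ℤ :=
  (itemsL M).map fun p => val (base m a b M.length) (2 * (m + 3)) (a 0)
    (∑ i : Fin (m + 1), a i.succ) b p

/-- the threshold -/
def kL (M : List (List Bool)) (k : ℕ) : ℕ := (itemsL M).length + k - M.length

lemma pt_itemsL : PT fun M : List (List Bool) => itemsL M := by
  unfold itemsL
  refine PT.filter (f := fun (M : List (List Bool)) (p : ℕ × ℕ) =>
    decide (p.1 = p.2 ∨ (p.1 < p.2 ∧ ¬ (ent M p.1 p.2 = true ∧ ent M p.2 p.1 = true))))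
    (PP.decide (by fun_prop)) (by fun_prop)

lemma pt_intsL (m : ℕ) (a : Fin (m + 2) → ℕ) (b : ℕ) :
    PT fun M : List (List Bool) => intsL m a b M := by
  unfold intsL base
  refine PT.map (f := fun (M : List (List Bool)) (p : ℕ × ℕ) => val (2 * (((2 * (m + 3) : ℕ) : ℤ) *
    (((∑ i, a i) + b) * ((∑ i, a i) + b) : ℕ) * ((M.length : ℕ) : ℤ) ^ (2 * (m + 3))) + 1)
      (2 * (m + 3)) (a 0) (∑ i : Fin (m + 1), a i.succ) b p) ?_ pt_itemsL
  refine pt_val _ _ _ _ ?_ (by fun_prop)
  generalize (((∑ i, a i) + b) * ((∑ i, a i) + b)) = C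
  generalize 2 * (m + 3) = d
  fun_prop

lemma pt_kL : PT fun x : List (List Bool) × ℕ => kL x.1 x.2 := by
  unfold kL
  have h : PT fun x : List (List Bool) × ℕ => itemsL x.1 := PT.comp pt_itemsL PT.id.fst
  fun_prop

lemma nodup_itemsL (M : List (List Bool)) : (itemsL M).Nodup :=
  (List.nodup_range.product List.nodup_range).filter _

lemma toFinset_itemsL (M : List (List Bool)) :
    (itemsL M).toFinset = items M.length (fun u v => ent M u v = true) := by
  ext ⟨u, v⟩
  have e : (u, v) ∈ List.range M.length ×ˢ List.range M.length ↔ u < M.length ∧ v < M.length := by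
    simp
  simp only [itemsL, List.mem_toFinset, List.mem_filter, decide_eq_true_eq, mem_items, e]

variable {m b : ℕ} {a : Fin (m + 2) → ℕ}

lemma base_lt (n : ℕ) : 2 * (((2 * (m + 3) : ℕ) : ℤ) *
    (((∑ i, a i) + b) * ((∑ i, a i) + b) : ℕ) * (n : ℤ) ^ (2 * (m + 3))) < base m a b n := by
  unfold base; omega

variable (pos : ∀ i, 0 < a i) (hb : 0 < b)

include pos hb

lemma nodup_intsL (M : List (List Bool)) : (intsL m a b M).Nodup := by
  refine (nodup_itemsL M).map_on fun p hp q hq h => ?_
  have e : ∀ p ∈ itemsL M, p ∈ items M.length (fun u v => ent M u v = true) := fun p hp => by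
    rw [← toFinset_itemsL, List.mem_toFinset]; exact hp
  exact inj_ints pos hb le_rfl (base_lt M.length) (Finset.mem_coe.2 (e p hp))
    (Finset.mem_coe.2 (e q hq)) h

lemma toFinset_intsL (M : List (List Bool)) : (intsL m a b M).toFinset =
    ints (base m a b M.length) (2 * (m + 3)) a b M.length (fun u v => ent M u v = true) := by
  unfold intsL ints
  rw [← toFinset_itemsL]
  ext z
  simp

lemma clq_iff (M : List (List Bool)) (k : ℕ) :
    HasClq M k ↔ HasFree (coeff a b) (intsL m a b M).toFinset (kL M k) := by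
  rw [toFinset_intsL pos hb]
  have h := clique_iff (adj := fun u v => ent M u v = true) pos hb le_rfl (base_lt M.length) k
  have e : (itemsL M).length = (items M.length (fun u v => ent M u v = true)).card := by
    rw [← toFinset_itemsL, List.toFinset_card_of_nodup (nodup_itemsL M)]
  rw [kL, e]
  exact h

/-- the polynomial that bounds the integers -/
noncomputable def bound (m : ℕ) (a : Fin (m + 2) → ℕ) (b : ℕ) : ℕ[X] :=
  C (((∑ i, a i) + b) * (2 * (m + 3))) *
    (X * (C (2 * ((2 * (m + 3)) * (((∑ i, a i) + b) * ((∑ i, a i) + b)))) *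
      X ^ (2 * (m + 3)) + 1)) ^ (2 * (m + 3))

lemma abs_le (M : List (List Bool)) : ∀ z ∈ intsL m a b M,
    |z| ≤ (bound m a b).eval (intsL m a b M).length := by
  intro z hz
  obtain ⟨p, hp, rfl⟩ := List.mem_map.1 hz
  have hp' : p ∈ items M.length (fun u v => ent M u v = true) := by
    rw [← toFinset_itemsL, List.mem_toFinset]; exact hp
  have hn := (mem_items.1 hp').1
  set n := M.length with hn'
  have hlen : n ≤ (intsL m a b M).length := by
    have e : (itemsL M).length = (items M.length (fun u v => ent M u v = true)).card := by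
      rw [← toFinset_itemsL, List.toFinset_card_of_nodup (nodup_itemsL M)]
    have := card_items (n := M.length) (adj := fun u v => ent M u v = true)
    rw [intsL, List.length_map, e]
    omega
  set N := (intsL m a b M).length
  have hT0 : 0 ≤ ((2 * (m + 3) : ℕ) : ℤ) * (((∑ i, a i) + b) * ((∑ i, a i) + b) : ℕ) *
    (n : ℤ) ^ (2 * (m + 3)) := by positivity
  have hT : 1 ≤ base m a b n := by unfold base; omega
  have hB : ∀ v, v < n → num (base m a b n) (2 * (m + 3)) v ≤
      ((2 * (m + 3) : ℕ) : ℤ) * (N * base m a b N) ^ (2 * (m + 3)) := by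
    intro v hv
    refine (num_le hT _ v n hv).trans (mul_le_mul_of_nonneg_left ?_ (by positivity))
    refine pow_le_pow_left₀ (by positivity) ?_ _
    have h1 : (n : ℤ) ≤ N := by exact_mod_cast hlen
    have h2 : base m a b n ≤ base m a b N := by
      unfold base
      have : (n : ℤ) ^ (2 * (m + 3)) ≤ (N : ℤ) ^ (2 * (m + 3)) :=
        pow_le_pow_left₀ (by positivity) h1 _
      have := mul_le_mul_of_nonneg_left this
        (show (0 : ℤ) ≤ ((2 * (m + 3) : ℕ) : ℤ) * (((∑ i, a i) + b) * ((∑ i, a i) + b) : ℕ) by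
          positivity)
      linarith
    exact mul_le_mul h1 h2 (by omega) (by positivity)
  have h0 : ∀ v, 0 ≤ num (base m a b n) (2 * (m + 3)) v := fun v => num_nonneg (by omega) _ _
  have hs : ∑ i, a i = a 0 + ∑ i : Fin (m + 1), a i.succ := Fin.sum_univ_succ _
  have hval : |val (base m a b n) (2 * (m + 3)) (a 0) (∑ i : Fin (m + 1), a i.succ) b p| ≤
      (((∑ i, a i) + b : ℕ) : ℤ) *
        (((2 * (m + 3) : ℕ) : ℤ) * (N * base m a b N) ^ (2 * (m + 3))) := by
    have hQ := (h0 p.1).trans (hB p.1 hn.1)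
    set Q := ((2 * (m + 3) : ℕ) : ℤ) * (N * base m a b N) ^ (2 * (m + 3))
    have g1 := hB p.1 hn.1
    have g2 := hB p.2 hn.2
    have g3 := h0 p.1
    have g4 := h0 p.2
    rw [hs]
    unfold val
    generalize (∑ i : Fin (m + 1), a i.succ) = a'
    generalize a 0 = a1
    have k1 := mul_le_mul_of_nonneg_left g1 (show (0 : ℤ) ≤ b by positivity)
    have k2 := mul_le_mul_of_nonneg_left g1 (show (0 : ℤ) ≤ a1 by positivity)
    have k3 := mul_le_mul_of_nonneg_left g2 (show (0 : ℤ) ≤ a' by positivity)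
    have k4 := mul_nonneg (show (0 : ℤ) ≤ b by positivity) g3
    have k5 := mul_nonneg (show (0 : ℤ) ≤ a1 by positivity) g3
    have k6 := mul_nonneg (show (0 : ℤ) ≤ a' by positivity) g4
    have k7 := mul_nonneg (show (0 : ℤ) ≤ b by positivity) hQ
    have k8 := mul_nonneg (show (0 : ℤ) ≤ a1 by positivity) hQ
    have k9 := mul_nonneg (show (0 : ℤ) ≤ a' by positivity) hQ
    push_cast
    split_ifs
    · rw [abs_of_nonneg k4]; linarith
    · rw [abs_of_nonneg (by linarith)]; linarith
  refine hval.trans (le_of_eq ?_)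
  simp only [bound, base, eval_mul, eval_C, eval_pow, eval_X, eval_add, eval_one]
  push_cast
  ring

end Pool.Agent.U17.SF
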