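import Pool.Agent.U17.SF.Diss

/-! Solutions of a positive equation among the numbers attached to the vertices and pairs of a
graph. -/

set_option linter.unusedSimpArgs false

namespace Pool.Agent.U17.SF

open Finset

/-- the linear form of an item: `(u, u)` is a vertex, `(u, v)` a pair -/
def form (a1 a' b : ℕ) (p : ℕ × ℕ) (w : ℕ) : ℕ :=
  if p.1 = p.2 then (if w = p.1 then b else 0)
  else (if w = p.1 then a1 else 0) + (if w = p.2 then a' else 0)

/-- the number of an item -/
def val (T : ℤ) (d a1 a' b : ℕ) (p : ℕ × ℕ) : ℤ :=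
  if p.1 = p.2 then b * num T d p.1 else a1 * num T d p.1 + a' * num T d p.2

variable {ℓ n d a1 a' b : ℕ} {a : Fin ℓ → ℕ} {T : ℤ}

lemma val_eq (p : ℕ × ℕ) (S : Finset ℕ) (h1 : p.1 ∈ S) (h2 : p.2 ∈ S) :
    val T d a1 a' b p = ∑ w ∈ S, (form a1 a' b p w : ℤ) * num T d w := by
  unfold val form
  split_ifs with h
  · simp [h1]
  · simp [add_mul, sum_add_distrib, h1, h2]

lemma form_le (p : ℕ × ℕ) (w : ℕ) : form a1 a' b p w ≤ a1 + a' + b := by
  unfold form; split_ifs <;> omega

lemma form_zero {p : ℕ × ℕ} {w : ℕ} (h1 : w ≠ p.1) (h2 : w ≠ p.2) : form a1 a' b p w = 0 := by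
  unfold form; simp [h1, h2]

lemma rel (hd : 2 * (ℓ + 1) ≤ d)
    (hT : 2 * ((d : ℤ) * ((((∑ i, a i) + b) * (a1 + a' + b) : ℕ) : ℤ) * (n : ℤ) ^ d) < T)
    (x : Fin ℓ → ℕ × ℕ) (y : ℕ × ℕ) (hx : ∀ i, (x i).1 < n ∧ (x i).2 < n)
    (hy : y.1 < n ∧ y.2 < n)
    (h : ∑ i, (a i : ℤ) * val T d a1 a' b (x i) = b * val T d a1 a' b y) (w : ℕ) :
    ∑ i, a i * form a1 a' b (x i) w = b * form a1 a' b y w := by
  classical
  set S : Finset ℕ := univ.image (fun i => (x i).1) ∪ univ.image (fun i => (x i).2) ∪ {y.1, y.2}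
    with hS
  have m1 : ∀ i, (x i).1 ∈ S := fun i => by simp [hS]
  have m2 : ∀ i, (x i).2 ∈ S := fun i => by simp [hS]
  have m3 : y.1 ∈ S := by simp [hS]
  have m4 : y.2 ∈ S := by simp [hS]
  have hcard : S.card ≤ d := by
    refine le_trans ?_ hd
    rw [hS]
    have e1 := card_union_le (univ.image (fun i => (x i).1) ∪ univ.image (fun i => (x i).2))
      {y.1, y.2}
    have e2 := card_union_le (univ.image (fun i => (x i).1)) (univ.image (fun i => (x i).2))
    have e3 : (univ.image (fun i => (x i).1)).card ≤ ℓ := card_image_le.trans (by simp)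
    have e4 : (univ.image (fun i => (x i).2)).card ≤ ℓ := card_image_le.trans (by simp)
    have e5 : ({y.1, y.2} : Finset ℕ).card ≤ 2 := card_le_two
    omega
  have hn : ∀ v ∈ S, v < n := by
    intro v hv
    simp only [hS, mem_union, mem_image, mem_univ, true_and, mem_insert, mem_singleton] at hv
    rcases hv with (⟨i, rfl⟩ | ⟨i, rfl⟩) | rfl | rfl
    exacts [(hx i).1, (hx i).2, hy.1, hy.2]
  have key := diss (T := T) (C := ((((∑ i, a i) + b) * (a1 + a' + b) : ℕ) : ℤ)) (d := d) (n := n)
    (by positivity) hT S hcard hn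
    (fun w => ∑ i, (a i : ℤ) * form a1 a' b (x i) w - b * form a1 a' b y w) (fun v _ => by
      have e1 : ∑ i, (a i : ℤ) * form a1 a' b (x i) v ≤ (∑ i, a i : ℕ) * (a1 + a' + b : ℕ) := by
        push_cast
        rw [sum_mul]
        refine sum_le_sum fun i _ => mul_le_mul_of_nonneg_left ?_ (by positivity)
        exact_mod_cast form_le (x i) v
      have e2 : (b : ℤ) * form a1 a' b y v ≤ b * (a1 + a' + b : ℕ) :=
        mul_le_mul_of_nonneg_left (by exact_mod_cast form_le y v) (by positivity)
      have e3 : (0 : ℤ) ≤ ∑ i, (a i : ℤ) * form a1 a' b (x i) v := sum_nonneg fun i _ => by positivity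
      have e4 : (0 : ℤ) ≤ (b : ℤ) * form a1 a' b y v := by positivity
      have e5 : (0 : ℤ) ≤ (∑ i, a i : ℕ) * (a1 + a' + b : ℕ) := by positivity
      have e6 : (0 : ℤ) ≤ (b : ℤ) * (a1 + a' + b : ℕ) := by positivity
      have e7 : ((((∑ i, a i) + b) * (a1 + a' + b) : ℕ) : ℤ) =
        (∑ i, a i : ℕ) * (a1 + a' + b : ℕ) + b * (a1 + a' + b : ℕ) := by push_cast; ring
      rw [e7, abs_le]
      constructor <;> linarith) (by
      have e1 : ∀ v ∈ S, (∑ i, (a i : ℤ) * form a1 a' b (x i) v - b * form a1 a' b y v) *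
          num T d v = ∑ i, (a i : ℤ) * (form a1 a' b (x i) v * num T d v) -
            b * (form a1 a' b y v * num T d v) := fun v _ => by
        rw [sub_mul, sum_mul]
        congr 1
        · exact sum_congr rfl fun i _ => by ring
        · ring
      rw [sum_congr rfl e1, sum_sub_distrib, sum_comm, ← mul_sum, ← val_eq y S m3 m4]
      have e2 : ∀ i ∈ (univ : Finset (Fin ℓ)),
          ∑ v ∈ S, (a i : ℤ) * (form a1 a' b (x i) v * num T d v) =
            a i * val T d a1 a' b (x i) := fun i _ => by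
        rw [← mul_sum, ← val_eq (x i) S (m1 i) (m2 i)]
      rw [sum_congr rfl e2, h, sub_self])
  by_cases hw : w ∈ S
  · have := sub_eq_zero.1 (key w hw)
    exact_mod_cast this
  · have e1 : ∀ i, form a1 a' b (x i) w = 0 := fun i =>
      form_zero (fun e => hw (by rw [e]; exact m1 i)) (fun e => hw (by rw [e]; exact m2 i))
    have e2 : form a1 a' b y w = 0 :=
      form_zero (fun e => hw (by rw [e]; exact m3)) (fun e => hw (by rw [e]; exact m4))
    simp [e1, e2]

lemma core (pos : ∀ i, 0 < a i) (h1 : 0 < a1) (h2 : 0 < a') (hb : 0 < b) (x : Fin ℓ → ℕ × ℕ)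
    (y : ℕ × ℕ) (hx : ∀ i, (x i).1 ≤ (x i).2) (hy : y.1 ≤ y.2)
    (h : ∀ w, ∑ i, a i * form a1 a' b (x i) w = b * form a1 a' b y w) :
    ((∀ i, x i = y) ∧ ∑ i, a i = b) ∨
      (y.1 < y.2 ∧ (∃ i, x i = (y.1, y.1)) ∧ ∃ i, x i = (y.2, y.2)) := by
  have hp : ∀ i w, 0 < form a1 a' b (x i) w → w = y.1 ∨ w = y.2 := by
    intro i w hw
    by_contra hc
    push Not at hc
    have e := h w
    rw [form_zero hc.1 hc.2, mul_zero, sum_eq_zero_iff] at e
    have := e i (mem_univ i)
    have := Nat.mul_pos (pos i) hw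
    omega
  have f1 : ∀ p : ℕ × ℕ, 0 < form a1 a' b p p.1 := fun p => by
    unfold form; split_ifs <;> omega
  have f2 : ∀ p : ℕ × ℕ, 0 < form a1 a' b p p.2 := fun p => by
    unfold form; split_ifs <;> omega
  have s1 : ∀ i, (x i).1 = y.1 ∨ (x i).1 = y.2 := fun i => hp i _ (f1 _)
  have s2 : ∀ i, (x i).2 = y.1 ∨ (x i).2 = y.2 := fun i => hp i _ (f2 _)
  obtain ⟨u, v⟩ := y
  simp only at *
  rcases hy.eq_or_lt with e | huv
  · subst e
    have s : ∀ i, x i = (u, u) := fun i => Prod.ext (by simpa using s1 i) (by simpa using s2 i)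
    refine Or.inl ⟨s, ?_⟩
    have e := h u
    simp only [s, form, if_true, ← sum_mul] at e
    exact Nat.eq_of_mul_eq_mul_right hb e
  · have s : ∀ i, x i = (u, v) ∨ x i = (u, u) ∨ x i = (v, v) := by
      intro i
      have t1 := s1 i
      have t2 := s2 i
      have t3 := hx i
      rcases t1 with t1 | t1 <;> rcases t2 with t2 | t2
      · exact Or.inr (Or.inl (Prod.ext t1 t2))
      · exact Or.inl (Prod.ext t1 t2)
      · omega
      · exact Or.inr (Or.inr (Prod.ext t1 t2))
    have n1 : ((u, v) : ℕ × ℕ) ≠ (u, u) := fun e => by simp at e; omega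
    have n2 : ((u, v) : ℕ × ℕ) ≠ (v, v) := fun e => by simp at e; omega
    have n3 : ((u, u) : ℕ × ℕ) ≠ (v, v) := fun e => by simp at e; omega
    set α := ∑ i, if x i = (u, v) then a i else 0 with hα
    set β := ∑ i, if x i = (u, u) then a i else 0 with hβ
    set γ := ∑ i, if x i = (v, v) then a i else 0 with hγ
    have t0 : ∑ i, a i = α + β + γ := by
      rw [hα, hβ, hγ, ← sum_add_distrib, ← sum_add_distrib]
      refine sum_congr rfl fun i _ => ?_
      rcases s i with e | e | e <;> simp [e, n1, n2, n3, n1.symm, n2.symm, n3.symm]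
    have t1 : a1 * α + b * β = b * a1 := by
      have e := h u
      have e2 : b * form a1 a' b (u, v) u = b * a1 := by
        unfold form; simp [huv.ne]
      rw [e2] at e
      rw [← e, hα, hβ, mul_sum, mul_sum, ← sum_add_distrib]
      refine sum_congr rfl fun i _ => ?_
      rcases s i with e | e | e <;>
        simp [e, n1, n2, n3, n1.symm, n2.symm, n3.symm, form, huv.ne, huv.ne', mul_comm]
    have t2 : a' * α + b * γ = b * a' := by
      have e := h v
      have e2 : b * form a1 a' b (u, v) v = b * a' := by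
        unfold form; simp [huv.ne, huv.ne']
      rw [e2] at e
      rw [← e, hα, hγ, mul_sum, mul_sum, ← sum_add_distrib]
      refine sum_congr rfl fun i _ => ?_
      rcases s i with e | e | e <;>
        simp [e, n1, n2, n3, n1.symm, n2.symm, n3.symm, form, huv.ne, huv.ne', mul_comm]
    have q1 : β = 0 → γ = 0 := by
      intro e
      rw [e, mul_zero, add_zero, mul_comm b] at t1
      have t3 := Nat.eq_of_mul_eq_mul_left h1 t1
      rw [t3, mul_comm a'] at t2
      have : b * γ = 0 := by omega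
      exact (Nat.mul_eq_zero.1 this).resolve_left (by omega)
    have q2 : γ = 0 → β = 0 := by
      intro e
      rw [e, mul_zero, add_zero, mul_comm b] at t2
      have t3 := Nat.eq_of_mul_eq_mul_left h2 t2
      rw [t3, mul_comm a1] at t1
      have : b * β = 0 := by omega
      exact (Nat.mul_eq_zero.1 this).resolve_left (by omega)
    by_cases hβ0 : β = 0
    · have hγ0 := q1 hβ0
      left
      have r1 : ∀ i, x i ≠ (u, u) := fun i e => by
        rw [hβ] at hβ0
        have := (sum_eq_zero_iff.1 hβ0) i (mem_univ i)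
        rw [if_pos e] at this
        have := pos i
        omega
      have r2 : ∀ i, x i ≠ (v, v) := fun i e => by
        rw [hγ] at hγ0
        have := (sum_eq_zero_iff.1 hγ0) i (mem_univ i)
        rw [if_pos e] at this
        have := pos i
        omega
      refine ⟨fun i => (s i).resolve_right fun h => h.elim (r1 i) (r2 i), ?_⟩
      rw [hβ0, mul_zero, add_zero, mul_comm b] at t1
      have t3 := Nat.eq_of_mul_eq_mul_left h1 t1
      omega
    · right
      have hγ0 : γ ≠ 0 := fun e => hβ0 (q2 e)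
      refine ⟨huv, ?_, ?_⟩
      · by_contra hc
        push Not at hc
        exact hβ0 (sum_eq_zero fun i _ => by simp [hc i])
      · by_contra hc
        push Not at hc
        exact hγ0 (sum_eq_zero fun i _ => by simp [hc i])

end Pool.Agent.U17.SF
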