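import Pool.Agent.Lib.helper10.NPDefs
import Pool.Agent.Lib.helper9.BinA
import Pool.Agent.U17.SF.Defs

/-! The language L-Free Subset and strong NP-completeness. -/

namespace Pool.Agent.U17.SF

open Pool.Agent.Cx

/-- The instance `(A, k)` as a binary string: the list of the elements of `A` and the number `k`,
all integers in binary. -/
def code (A : List ℤ) (k : ℕ) : List Bool := enc (A, (k : ℤ))

/-- L-Free Subset: the codes of the instances `(A, k)`, `A` a finite set of integers given by the
list of its elements without repetition, such that `A` has a solution-free subset of cardinality at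
least `k`. -/
def freeSubset {m : ℕ} (c : Fin m → ℤ) : Language :=
  {w | ∃ (A : List ℤ) (k : ℕ), A.Nodup ∧ HasFree c A.toFinset k ∧ code A k = w}

/-- Strongly NP-complete: the language is in NP, and for some polynomial `p` every language of NP
is reduced in polynomial time to it by a function all of whose values are instances `(A, k)` with
`|x| ≤ p(|A|)` for all `x` in `A`. -/
def StronglyNPComplete {m : ℕ} (c : Fin m → ℤ) : Prop :=
  InNP (freeSubset c) ∧ ∃ p : Polynomial ℕ, ∀ L : Language, InNP L →
    ∃ (A : List Bool → List ℤ) (k : List Bool → ℕ), PolyTime (fun w => code (A w) (k w)) ∧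
      ∀ w, (A w).Nodup ∧ (∀ x ∈ A w, |x| ≤ ((p.eval (A w).length : ℕ) : ℤ)) ∧
        (w ∈ L ↔ code (A w) (k w) ∈ freeSubset c)

end Pool.Agent.U17.SF
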