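import Pool.Agent.U17.SF.PTime
import Pool.Agent.U17.SF.Member

/-! Strong NP-completeness. -/

namespace Pool.Agent.U17.SF

open Pool.Agent.Cx

theorem code_mem {m : ℕ} {c : Fin m → ℤ} {A : List ℤ} {k : ℕ} (hA : A.Nodup) :
    code A k ∈ freeSubset c ↔ HasFree c A.toFinset k := by
  constructor
  · rintro ⟨A', k', h1, h2, h3⟩
    have h4 : (A', (k' : ℤ)) = (A, (k : ℤ)) := enc_inj h3
    have h5 := (Prod.mk.inj h4).1
    have h6 : k' = k := by exact_mod_cast (Prod.mk.inj h4).2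
    subst h5 h6
    exact h2
  · intro h
    exact ⟨A, k, hA, h, rfl⟩

theorem strong {m : ℕ} {a : Fin (m + 2) → ℕ} {b : ℕ} (pos : ∀ i, 0 < a i) (hb : 0 < b) :
    StronglyNPComplete (coeff a b) := by
  refine ⟨inNP pos, bound m a b, fun L hL => ?_⟩
  have h0 : Hard (fun p : List (List Bool) × ℕ => HasClq p.1 p.2) :=
    Hard.of_clique (r := fun p => p) PT.id fun M k _ _ _ => Iff.rfl
  obtain ⟨g, hg, hgx⟩ := h0 L hL
  refine ⟨fun w => intsL m a b (g w).1, fun w => kL (g w).1 (g w).2, ?_, fun w => ⟨?_, ?_, ?_⟩⟩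
  · have h1 : PT fun w : List Bool => intsL m a b (g w).1 := PT.comp (pt_intsL m a b) hg.fst
    have h2 : PT fun w : List Bool => kL (g w).1 (g w).2 := PT.comp pt_kL hg
    have h3 : PT fun w : List Bool => (intsL m a b (g w).1, ((kL (g w).1 (g w).2 : ℕ) : ℤ)) :=
      h1.pair (castZ h2)
    exact polyTime_of_PT h3
  · exact nodup_intsL pos hb _
  · exact abs_le pos hb _
  · rw [code_mem (nodup_intsL pos hb _), hgx w]
    exact clq_iff pos hb _ _

end Pool.Agent.U17.SF
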